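import Pool.Agent.N783.CF.Stm

/-!
# At most one pair of equal roots

If the discriminant of `f` is not divisible by `𝔭 ^ 2`, then modulo `𝔭` there is at most one pair of
equal roots: otherwise the Sylvester matrix of `f` and `f'` has corank at least two modulo `𝔭`.
-/

set_option autoImplicit false
set_option linter.all false

open Polynomial NumberField Matrix
open scoped Classical

namespace Pool.Agent.N513.CF

open Pool.Agent.N783.CF
open Pool.Agent.N783.PF (dsc)

/-- A coefficient of a product. -/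
theorem coeff_mul_fin {R : Type*} [CommRing R] (h r : R[X]) (a b : ℕ) (hh : h.natDegree ≤ b)
    (hr : r.degree < (a : WithBot ℕ)) (i : ℕ) :
    (h * r).coeff i =
      ∑ j : Fin a, (if i ∈ Set.Icc (j : ℕ) (j + b) then h.coeff (i - j) else 0) * r.coeff j := by
  have h1 : r = ∑ j : Fin a, C (r.coeff j) * X ^ (j : ℕ) := by
    rw [Fin.sum_univ_eq_sum_range (fun j => C (r.coeff j) * X ^ j) a]
    ext k
    rw [finset_sum_coeff]
    simp only [coeff_C_mul, coeff_X_pow, mul_ite, mul_one, mul_zero]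
    rw [Finset.sum_ite_eq]
    by_cases hk : k < a
    · rw [if_pos (Finset.mem_range.mpr hk)]
    · rw [if_neg (by simpa using hk)]
      exact coeff_eq_zero_of_degree_lt (hr.trans_le (by exact_mod_cast not_lt.mp hk))
  conv_lhs => rw [h1, Finset.mul_sum, finset_sum_coeff]
  refine Finset.sum_congr rfl fun j _ => ?_
  rw [← mul_assoc, coeff_mul_X_pow', coeff_mul_C]
  by_cases h2 : (j : ℕ) ≤ i
  · rw [if_pos h2]
    by_cases h3 : i ≤ j + b
    · rw [if_pos ⟨h2, h3⟩]
    · rw [if_neg (fun h => h3 h.2), coeff_eq_zero_of_natDegree_lt (by omega)]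
  · rw [if_neg h2, if_neg (fun h => h2 h.1), zero_mul]

/-- The Sylvester matrix as a linear map. -/
theorem syl_mulVec {R : Type*} [CommRing R] (f g p q : R[X]) (m n : ℕ)
    (hf : f.natDegree ≤ m) (hg : g.natDegree ≤ n) (hp : p.degree < (m : WithBot ℕ))
    (hq : q.degree < (n : WithBot ℕ)) (i : Fin (m + n)) :
    (sylvester f g m n *ᵥ
        (Fin.addCases (fun j : Fin m => p.coeff j) (fun j : Fin n => q.coeff j))) i
      = (g * p + f * q).coeff i := by
  rw [Matrix.mulVec, dotProduct, Fin.sum_univ_add, coeff_add, coeff_mul_fin g p m n hg hp,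
    coeff_mul_fin f q n m hf hq]
  congr 1
  · refine Finset.sum_congr rfl fun j _ => ?_
    simp only [sylvester, Matrix.of_apply, Fin.addCases_left]
  · refine Finset.sum_congr rfl fun j _ => ?_
    simp only [sylvester, Matrix.of_apply, Fin.addCases_right]

/-- Two double roots, or a triple root. -/
theorem exists_sq {Ω : Type*} [Field Ω] {n : ℕ} (r : Fin n → Ω) (i j k l : Fin n) (hij : i ≠ j)
    (h1 : r i = r j) (hkl : k ≠ l) (h2 : r k = r l) (hne : ({i, j} : Finset (Fin n)) ≠ {k, l}) :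
    ∃ w : Polynomial Ω, w.natDegree = 2 ∧ w ∣ ∏ i, (X - C (r i)) ∧
      w ∣ derivative (∏ i, (X - C (r i))) := by
  have hpow : ∀ (s : Finset (Fin n)) (α : Ω), (∀ a ∈ s, r a = α) →
      (X - C α) ^ s.card ∣ ∏ i, (X - C (r i)) := by
    intro s α hs
    have : (X - C α) ^ s.card = ∏ i ∈ s, (X - C (r i)) := by
      rw [Finset.prod_congr rfl (fun a ha => by rw [hs a ha]), Finset.prod_const]
    rw [this]
    exact Finset.prod_dvd_prod_of_subset _ _ _ (Finset.subset_univ _)
  have cij : ({i, j} : Finset (Fin n)).card = 2 := Finset.card_pair hij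
  have ckl : ({k, l} : Finset (Fin n)).card = 2 := Finset.card_pair hkl
  by_cases hαβ : r i = r k
  · have h3 : 3 ≤ (({i, j} : Finset (Fin n)) ∪ {k, l}).card := by
      by_contra hlt
      have e1 : ({i, j} : Finset (Fin n)) = {i, j} ∪ {k, l} :=
        Finset.eq_of_subset_of_card_le Finset.subset_union_left (by omega)
      have e2 : ({k, l} : Finset (Fin n)) = {i, j} ∪ {k, l} :=
        Finset.eq_of_subset_of_card_le Finset.subset_union_right (by omega)
      exact hne (e1.trans e2.symm)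
    have h4 : (X - C (r i)) ^ 3 ∣ ∏ i, (X - C (r i)) := by
      refine (pow_dvd_pow _ h3).trans (hpow _ _ ?_)
      intro a ha
      simp only [Finset.mem_union, Finset.mem_insert, Finset.mem_singleton] at ha
      rcases ha with (rfl | rfl) | (rfl | rfl)
      · rfl
      · exact h1.symm
      · exact hαβ.symm
      · exact (hαβ.trans h2).symm
    refine ⟨(X - C (r i)) ^ 2, by simp, (pow_dvd_pow _ (by norm_num)).trans h4, ?_⟩
    have h7 := pow_sub_one_dvd_derivative_of_pow_dvd h4
    rwa [show 3 - 1 = 2 from rfl] at h7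
  · have h5 : (X - C (r i)) ^ 2 ∣ ∏ i, (X - C (r i)) := by
      have := hpow {i, j} (r i) (by
        intro a ha
        simp only [Finset.mem_insert, Finset.mem_singleton] at ha
        rcases ha with rfl | rfl
        · rfl
        · exact h1.symm)
      rwa [cij] at this
    have h6 : (X - C (r k)) ^ 2 ∣ ∏ i, (X - C (r i)) := by
      have := hpow {k, l} (r k) (by
        intro a ha
        simp only [Finset.mem_insert, Finset.mem_singleton] at ha
        rcases ha with rfl | rfl
        · rfl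
        · exact h2.symm)
      rwa [ckl] at this
    have hco : IsCoprime (X - C (r i)) (X - C (r k)) :=
      isCoprime_X_sub_C_of_isUnit_sub (sub_ne_zero.mpr hαβ).isUnit
    have d5 := pow_sub_one_dvd_derivative_of_pow_dvd h5
    have d6 := pow_sub_one_dvd_derivative_of_pow_dvd h6
    rw [show 2 - 1 = 1 from rfl, pow_one] at d5 d6
    refine ⟨(X - C (r i)) * (X - C (r k)), ?_, ?_, hco.mul_dvd d5 d6⟩
    · rw [natDegree_mul (X_sub_C_ne_zero _) (X_sub_C_ne_zero _), natDegree_X_sub_C,
        natDegree_X_sub_C]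
    · exact hco.mul_dvd ((dvd_pow_self _ two_ne_zero).trans h5)
        ((dvd_pow_self _ two_ne_zero).trans h6)

/-- The statement over a field: two vectors in the kernel of the Sylvester matrix. -/
theorem exists_ker {κ Ω : Type*} [Field κ] [Field Ω] (φ : κ →+* Ω) (g : ℕ) (f : κ[X])
    (hf : f.Monic) (hd : f.natDegree = 2 * g + 1) (w : Polynomial Ω) (hw : w.natDegree = 2)
    (h1 : w ∣ f.map φ) (h2 : w ∣ derivative (f.map φ)) :
    ∃ x y : Fin (2 * g + 1 + 2 * g) → κ,
      (∀ i, (sylvester f (derivative f) (2 * g + 1) (2 * g) *ᵥ x) i = 0) ∧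
      (∀ i, (sylvester f (derivative f) (2 * g + 1) (2 * g) *ᵥ y) i = 0) ∧
      ∃ a b, x a * y b - x b * y a ≠ 0 := by
  set G := derivative f with hG
  set d := EuclideanDomain.gcd f G with hdd
  have hf0 : f ≠ 0 := hf.ne_zero
  have hd0 : d ≠ 0 := by
    intro h
    exact hf0 (EuclideanDomain.gcd_eq_zero_iff.mp h).1
  obtain ⟨u, hu⟩ : d ∣ f := EuclideanDomain.gcd_dvd_left f G
  obtain ⟨v, hv⟩ : d ∣ G := EuclideanDomain.gcd_dvd_right f G
  have hdeg : 2 ≤ d.natDegree := by
    have h3 : w ∣ d.map φ := by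
      rw [hdd, ← gcd_map]
      refine EuclideanDomain.dvd_gcd h1 ?_
      rwa [hG, ← derivative_map]
    have h4 := natDegree_le_of_dvd h3 (map_ne_zero hd0)
    rwa [hw, natDegree_map] at h4
  have hu0 : u ≠ 0 := by
    rintro rfl
    exact hf0 (by rw [hu, mul_zero])
  have hud : d.natDegree + u.natDegree = 2 * g + 1 := by
    rw [← natDegree_mul hd0 hu0, ← hu, hd]
  have hGd : G.natDegree ≤ 2 * g := by
    have := natDegree_derivative_le f
    rw [hd] at this
    simpa using this
  have hvd : v = 0 ∨ d.natDegree + v.natDegree ≤ 2 * g := by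
    by_cases hv0 : v = 0
    · exact Or.inl hv0
    · right
      rw [← natDegree_mul hd0 hv0, ← hv]
      exact hGd
  have key : G * u + f * (-v) = 0 := by
    rw [hu, hv]; ring
  have key' : G * (X * u) + f * (-(X * v)) = 0 := by
    rw [hu, hv]; ring
  have b1 : u.degree < ((2 * g + 1 : ℕ) : WithBot ℕ) := by
    refine lt_of_le_of_lt degree_le_natDegree ?_
    exact_mod_cast (by omega : u.natDegree < 2 * g + 1)
  have b2 : (X * u).degree < ((2 * g + 1 : ℕ) : WithBot ℕ) := by
    refine lt_of_le_of_lt degree_le_natDegree ?_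
    rw [natDegree_X_mul hu0]
    exact_mod_cast (by omega : u.natDegree + 1 < 2 * g + 1)
  have b3 : (-v).degree < ((2 * g : ℕ) : WithBot ℕ) := by
    rw [degree_neg]
    rcases hvd with rfl | hvd
    · rw [degree_zero]; exact WithBot.bot_lt_coe _
    · refine lt_of_le_of_lt degree_le_natDegree ?_
      exact_mod_cast (by omega : v.natDegree < 2 * g)
  have b4 : (-(X * v)).degree < ((2 * g : ℕ) : WithBot ℕ) := by
    rw [degree_neg]
    by_cases hv0 : v = 0
    · rw [hv0, mul_zero, degree_zero]; exact WithBot.bot_lt_coe _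
    · have hvd' := hvd.resolve_left hv0
      refine lt_of_le_of_lt degree_le_natDegree ?_
      rw [natDegree_X_mul hv0]
      exact_mod_cast (by omega : v.natDegree + 1 < 2 * g)
  refine ⟨Fin.addCases (fun j : Fin (2 * g + 1) => u.coeff j) (fun j : Fin (2 * g) => (-v).coeff j),
    Fin.addCases (fun j : Fin (2 * g + 1) => (X * u).coeff j)
      (fun j : Fin (2 * g) => (-(X * v)).coeff j), ?_, ?_,
    Fin.castAdd _ ⟨u.natDegree, by omega⟩, Fin.castAdd _ ⟨u.natDegree + 1, by omega⟩, ?_⟩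
  · intro i
    rw [syl_mulVec f G u (-v) _ _ hd.le hGd b1 b3 i, key, coeff_zero]
  · intro i
    rw [syl_mulVec f G (X * u) (-(X * v)) _ _ hd.le hGd b2 b4 i, key', coeff_zero]
  · simp only [Fin.addCases_left]
    rw [coeff_X_mul, coeff_eq_zero_of_natDegree_lt (Nat.lt_succ_self _), zero_mul, sub_zero]
    have : u.coeff u.natDegree ≠ 0 := by
      rw [coeff_natDegree]
      exact leadingCoeff_ne_zero.mpr hu0
    exact mul_ne_zero this this

/-- Modulo `𝔭` there is at most one pair of equal roots. -/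
theorem t_PAIR : S_DET2 → S_PAIR := by
  intro hdet F Ω _ _ _ g 𝔭 f ρ r hg hp hp0 hker hf hd hdsc hprod i j k l hij h1 hkl h2
  by_contra hne
  obtain ⟨w, hw, hw1, hw2⟩ := exists_sq r i j k l hij h1 hkl h2 hne
  haveI : 𝔭.IsPrime := hp
  haveI hmax : 𝔭.IsMaximal := hp.isMaximal hp0
  letI : Field (𝓞 F ⧸ 𝔭) := Ideal.Quotient.field 𝔭
  have hlift : ∀ a ∈ 𝔭, ρ a = 0 := by
    intro a ha
    rw [← hker] at ha
    exact ha
  let φ : (𝓞 F ⧸ 𝔭) →+* Ω := Ideal.Quotient.lift 𝔭 ρ hlift
  let π : 𝓞 F →+* (𝓞 F ⧸ 𝔭) := Ideal.Quotient.mk 𝔭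
  have hφπ : φ.comp π = ρ := by
    ext a
    exact Ideal.Quotient.lift_mk 𝔭 ρ hlift
  have hmap : (f.map π).map φ = ∏ i, (X - C (r i)) := by
    rw [Polynomial.map_map, hφπ, hprod]
  obtain ⟨x, y, hx, hy, a, b, hab⟩ := exists_ker φ g (f.map π) (hf.map π)
    (by rw [hf.natDegree_map, hd]) w hw (by rw [hmap]; exact hw1) (by rw [hmap]; exact hw2)
  have hsurj : ∀ z : Fin (2 * g + 1 + 2 * g) → (𝓞 F ⧸ 𝔭),
      ∃ z' : Fin (2 * g + 1 + 2 * g) → 𝓞 F, ∀ i, π (z' i) = z i := by
    intro z
    choose z' hz' using fun i => Ideal.Quotient.mk_surjective (z i)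
    exact ⟨z', hz'⟩
  obtain ⟨x', hx'⟩ := hsurj x
  obtain ⟨y', hy'⟩ := hsurj y
  have hker' : ∀ (z : Fin (2 * g + 1 + 2 * g) → (𝓞 F ⧸ 𝔭)) (z' : Fin (2 * g + 1 + 2 * g) → 𝓞 F),
      (∀ i, π (z' i) = z i) →
      (∀ i, (sylvester (f.map π) (derivative (f.map π)) (2 * g + 1) (2 * g) *ᵥ z) i = 0) →
      ∀ i, (sylvester f (derivative f) (2 * g + 1) (2 * g) *ᵥ z') i ∈ 𝔭 := by
    intro z z' hz' hz i
    have e : z = π ∘ z' := by
      funext i
      exact (hz' i).symm
    have h3 := hz i
    rw [derivative_map, sylvester_map_map, e] at h3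
    rw [← Ideal.Quotient.eq_zero_iff_mem]
    rw [← h3]
    exact RingHom.map_mulVec π _ _ i
  apply hdsc
  refine hdet F 𝔭 (Fin (2 * g + 1 + 2 * g)) (sylvester f (derivative f) (2 * g + 1) (2 * g)) x' y'
    hp hp0 (hker' x x' hx' hx) (hker' y y' hy' hy) ⟨a, b, ?_⟩
  intro hmem
  apply hab
  rw [← hx' a, ← hx' b, ← hy' a, ← hy' b, ← map_mul, ← map_mul, ← map_sub]
  exact Ideal.Quotient.eq_zero_iff_mem.mpr hmem

end Pool.Agent.N513.CF
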